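import Pool.Agent.BBX.Sys
import Pool.Agent.BBV.Defs
import Pool.Agent.BBP.Defs2

/-!
# The data for the four kinds
-/

set_option autoImplicit false

noncomputable section

namespace Pool.Agent.BBV

open Pool.Agent.BBX

open Pool.Agent.ZCyc Pool.Agent.BBM
open Pool.Agent.GBB (zeta psi)
open scoped LinearAlgebra.Projectivization Classical

variable {S₁ S₂ S₃ S₄ : Type} (Y : Fly S₁ S₂ S₃ S₄)

/-- the base point `(1, -1, 0, 0, 0)` of the Dwork quintic -/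
def o5 : ℙ ℂ (Fin 5 → ℂ) := Projectivization.mk ℂ (![1, -1, 0, 0, 0] : Fin 5 → ℂ) (by
  intro h
  have h1 := congrFun h 0
  simp at h1)

theorem o5_mem (t : ℂ) : ∑ i, o5.rep i ^ 5 = 5 * t * ∏ i, o5.rep i := by
  obtain ⟨a, ha⟩ := Projectivization.exists_smul_eq_mk_rep ℂ (![1, -1, 0, 0, 0] : Fin 5 → ℂ) (by
    intro h
    have h1 := congrFun h 0
    simp at h1)
  have h1 : ∀ i, o5.rep i = (a : ℂ) * (![1, -1, 0, 0, 0] : Fin 5 → ℂ) i :=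
    fun i => (congrFun ha i).symm
  simp only [h1, Fin.sum_univ_five, Fin.prod_univ_five]
  simp
  ring

/-- the finite sets of maps -/
def Fly.K : S₁ ⊕ S₂ ⊕ S₃ ⊕ S₄ → Type
  | .inl s => Fin (Y.r s * Y.d s) → ZMod (Y.d s)
  | .inr (.inl s) => ∀ i : Fin (Y.l s), ZMod ((Y.V s).M i)
  | .inr (.inr (.inl _)) => Bool
  | .inr (.inr (.inr s)) => ∀ i : Fin 3, ZMod ((Y.Z s).M i)

/-- the maps -/
def Fly.av [∀ s, NeZero (Y.d s)] [∀ s i, NeZero ((Y.V s).M i)] [∀ s i, NeZero ((Y.Z s).M i)] :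
    (s : S₁ ⊕ S₂ ⊕ S₃ ⊕ S₄) → Y.K s → Y.P s → Y.P s
  | .inl s => fun (κ : Fin (Y.r s * Y.d s) → ZMod (Y.d s)) p => Y.act (.inl s) (BBP.rtv κ) p
  | .inr (.inl s) => fun (κ : ∀ i : Fin (Y.l s), ZMod ((Y.V s).M i)) p =>
      Y.act (.inr (.inl s)) (fun i => BBP.rt (κ i)) p
  | .inr (.inr (.inl s)) => fun (κ : Bool) p => if κ then p else ⟨fun _ => o5, o5_mem (Y.t s)⟩
  | .inr (.inr (.inr s)) => fun (κ : ∀ i : Fin 3, ZMod ((Y.Z s).M i)) p =>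
      Y.act (.inr (.inr (.inr s))) (fun i => BBP.rt (κ i)) p

/-- the coefficients of the projections -/
def Fly.wt : (s : S₁ ⊕ S₂ ⊕ S₃ ⊕ S₄) → Y.K s → Y.K s → ℂ
  | .inl s => fun (c κ : Fin (Y.r s * Y.d s) → ZMod (Y.d s)) =>
      ∏ j, ((Y.d s : ℂ)⁻¹ * psi (-(c j * κ j)))
  | .inr (.inl s) => fun (c κ : ∀ i : Fin (Y.l s), ZMod ((Y.V s).M i)) =>
      ∏ i, (((Y.V s).M i : ℂ)⁻¹ * psi (-(c i * κ i)))
  | .inr (.inr (.inl _)) => fun (c κ : Bool) => if c then (if κ then 1 else -1) else if κ then 0 else 1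
  | .inr (.inr (.inr s)) => fun (c κ : ∀ i : Fin 3, ZMod ((Y.Z s).M i)) =>
      ∏ i, (((Y.Z s).M i : ℂ)⁻¹ * psi (-(c i * κ i)))

/-- the values of the characters -/
def Fly.chi : (s : S₁ ⊕ S₂ ⊕ S₃ ⊕ S₄) → Y.K s → Y.G s → ℂ
  | .inl s => fun (c : Fin (Y.r s * Y.d s) → ZMod (Y.d s))
      (ζ : Fin (Y.r s * Y.d s) → rootsOfUnity (Y.d s) ℂ) => ∏ j, ((ζ j : ℂˣ) : ℂ) ^ (c j).val
  | .inr (.inl s) => fun (c : ∀ i : Fin (Y.l s), ZMod ((Y.V s).M i))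
      (h : ∀ i, rootsOfUnity ((Y.V s).M i) ℂ) => ∏ i, ((h i : ℂˣ) : ℂ) ^ (c i).val
  | .inr (.inr (.inl _)) => fun (c : Bool) (g : DWK.Mon ℂ) => if c then ((Equiv.Perm.sign g.π : ℤ) : ℂ) else 1
  | .inr (.inr (.inr s)) => fun (c : ∀ i : Fin 3, ZMod ((Y.Z s).M i))
      (h : ∀ i, rootsOfUnity ((Y.Z s).M i) ℂ) => ∏ i, ((h i : ℂˣ) : ℂ) ^ (c i).val

/-- the conjugates of the characters of the forms -/
def Fly.cj : (s : S₁ ⊕ S₂ ⊕ S₃ ⊕ S₄) → ℕ → Y.Form s → Y.K s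
  | .inl s => fun t _ => fun (_ : Fin (Y.r s * Y.d s)) => (t : ZMod (Y.d s))
  | .inr (.inl s) => fun t (a : {a : Fin (Y.l s) → ℕ // ∀ i, 0 < a i ∧ a i < (Y.V s).M i}) =>
      fun i => ((t * a.1 i : ℕ) : ZMod ((Y.V s).M i))
  | .inr (.inr (.inl _)) => fun _ _ => true
  | .inr (.inr (.inr s)) => fun t (a : {a : Fin 3 → ℕ // ∀ i, 0 < a i ∧ a i < (Y.Z s).M i}) =>
      fun i => ((t * a.1 i : ℕ) : ZMod ((Y.Z s).M i))

/-- the order of the roots of unity -/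
def Fly.L [Fintype S₁] [Fintype S₂] [Fintype S₄] : ℕ :=
  2 * (∏ s, Y.d s) * ((∏ s, ∏ i, (Y.V s).M i) * ∏ s, ∏ i, (Y.Z s).M i)

instance Fly.fK [∀ s, NeZero (Y.d s)] [∀ s i, NeZero ((Y.V s).M i)] [∀ s i, NeZero ((Y.Z s).M i)] :
    ∀ s : S₁ ⊕ S₂ ⊕ S₃ ⊕ S₄, Fintype (Y.K s)
  | .inl s => inferInstanceAs (Fintype (Fin (Y.r s * Y.d s) → ZMod (Y.d s)))
  | .inr (.inl s) => inferInstanceAs (Fintype (∀ i : Fin (Y.l s), ZMod ((Y.V s).M i)))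
  | .inr (.inr (.inl _)) => inferInstanceAs (Fintype Bool)
  | .inr (.inr (.inr s)) => inferInstanceAs (Fintype (∀ i : Fin 3, ZMod ((Y.Z s).M i)))

/-- the zero element -/
def Fly.e : (s : S₁ ⊕ S₂ ⊕ S₃ ⊕ S₄) → Y.K s
  | .inl s => fun (_ : Fin (Y.r s * Y.d s)) => (0 : ZMod (Y.d s))
  | .inr (.inl s) => fun (i : Fin (Y.l s)) => (0 : ZMod ((Y.V s).M i))
  | .inr (.inr (.inl _)) => true
  | .inr (.inr (.inr s)) => fun (i : Fin 3) => (0 : ZMod ((Y.Z s).M i))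

/-- the data for the four kinds -/
def Fly.sys [Fintype S₁] [Fintype S₂] [Fintype S₄] [∀ s, NeZero (Y.d s)] [∀ s i, NeZero ((Y.V s).M i)] [∀ s i, NeZero ((Y.Z s).M i)] :
    Sys (S₁ ⊕ S₂ ⊕ S₃ ⊕ S₄) where
  P := Y.P
  G := Y.G
  act := Y.act
  n := Y.n
  rat := Y.rat
  K := Y.K
  av := Y.av
  e := Y.e
  C := Y.K
  wt := Y.wt
  chi := Y.chi
  Form := Y.Form
  om := Y.om
  cj := Y.cj
  L := Y.L

end Pool.Agent.BBV
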