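import Pool.Agent.BBV.Main

/-!
# Permutations of equal factors
-/

set_option autoImplicit false

noncomputable section

namespace Pool.Agent.BBV

open Pool.Agent.ZCyc Pool.Agent.BBM Pool.Agent.BBX

private theorem top_Voi {S : Type} {k : S → ℕ} [Fintype S] [D : DecidableEq S] {𝒮 : Sys S}
    (h : 𝒮.Ok) (γ : ((∀ s, Equiv.Perm (Fin (k s))) × (∀ i : Idx k, 𝒮.G i.1)) →₀ ℚ)
    (hγ : 𝒮.KillsTop γ) (x y : Pts 𝒮.P k) :
    (γ.sum fun g c => c • (cyc ℚ Finset.univ x y).mapDomain (symAct 𝒮.act g.1 g.2)) ∈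
      𝒮.rat k := by
  have hD : D = fun a b => Classical.propDecidable (a = b) := Subsingleton.elim _ _
  subst hD
  exact top h γ hγ x y

private theorem perm_Voi {S : Type} {k : S → ℕ} [Fintype S] [DecidableEq S] {𝒮 : Sys S}
    (h : 𝒮.Ok) (id : ∀ s, 𝒮.G s) (τ : ∀ s, Equiv.Perm (Fin (k s)))
    (h1 : ∀ i : Idx k, Subsingleton (𝒮.Form i.1)) (x y : Pts 𝒮.P k) :
    (cyc ℚ Finset.univ x y).mapDomain (symAct 𝒮.act τ fun i : Idx k => id i.1) -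
      (∏ s, (((Equiv.Perm.sign (τ s) : ℤˣ) : ℤ) : ℚ) ^ 𝒮.n s) •
        (cyc ℚ Finset.univ x y).mapDomain (symAct 𝒮.act (fun _ => 1) fun i : Idx k => id i.1) ∈
      𝒮.rat k := by
  classical
  obtain ⟨c, hc⟩ : ∃ c : ℚ, c = ∏ s, (((Equiv.Perm.sign (τ s) : ℤˣ) : ℤ) : ℚ) ^ 𝒮.n s := ⟨_, rfl⟩
  rw [← hc]
  obtain ⟨H, hH⟩ : ∃ H : (∀ s, Equiv.Perm (Fin (k s))) × (∀ i : Idx k, 𝒮.G i.1) → ℚ →
      (Pts 𝒮.P k →₀ ℚ), H = fun g a => a • (cyc ℚ Finset.univ x y).mapDomain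
        (symAct 𝒮.act g.1 g.2) := ⟨_, rfl⟩
  have hz : ∀ g, H g 0 = 0 := fun g => by
    rw [hH]
    exact zero_smul _ _
  have hadd : ∀ g a b, H g (a + b) = H g a + H g b := fun g a b => by
    rw [hH]
    exact add_smul _ _ _
  have h2 := top_Voi h (Finsupp.single (τ, fun i : Idx k => id i.1) 1 +
    Finsupp.single ((fun _ => 1), fun i : Idx k => id i.1) (-c)) ?_ x y
  · rw [← hH, Finsupp.sum_add_index' hz hadd, Finsupp.sum_single_index (hz _),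
      Finsupp.sum_single_index (hz _), hH] at h2
    beta_reduce at h2
    rw [one_smul, neg_smul, ← sub_eq_add_neg] at h2
    exact h2
  · intro b b'
    obtain ⟨P, hP⟩ : ∃ P : ℂ, P = ∏ i : Idx k, 𝒮.om i.1 (b i) (id i.1) := ⟨_, rfl⟩
    have hb : ∀ g : (∀ s, Equiv.Perm (Fin (k s))) × (∀ i : Idx k, 𝒮.G i.1),
        ∀ i : Idx k, b' ⟨i.1, g.1 i.1 i.2⟩ = b i := fun g i => by
      have := h1 i
      exact Subsingleton.elim _ _
    have hf : ∀ (D : DecidablePred fun g : (∀ s, Equiv.Perm (Fin (k s))) ×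
        (∀ i : Idx k, 𝒮.G i.1) => ∀ i : Idx k, b' ⟨i.1, g.1 i.1 i.2⟩ = b i)
        (A : Finset ((∀ s, Equiv.Perm (Fin (k s))) × (∀ i : Idx k, 𝒮.G i.1))),
        @Finset.filter _ _ D A = A := fun D A => by
      apply Finset.ext
      intro g
      rw [Finset.mem_filter]
      exact ⟨fun h => h.1, fun h => ⟨h, hb g⟩⟩
    refine Eq.trans (Finset.sum_congr (hf _ _) fun _ _ => rfl) ?_
    obtain ⟨T, hT⟩ : ∃ T : (∀ s, Equiv.Perm (Fin (k s))) × (∀ i : Idx k, 𝒮.G i.1) → ℚ → ℂ,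
        T = fun (g : (∀ s, Equiv.Perm (Fin (k s))) × (∀ i : Idx k, 𝒮.G i.1)) (a : ℚ) =>
        (a : ℂ) * ((∏ s, (((Equiv.Perm.sign (g.1 s) : ℤˣ) : ℤ) : ℂ) ^ 𝒮.n s) *
          ∏ i : Idx k, 𝒮.om i.1 (b i) (g.2 i)) := ⟨_, rfl⟩
    have tz : ∀ g, T g 0 = 0 := fun g => by
      rw [hT]
      simp
    have tadd : ∀ g a b, T g (a + b) = T g a + T g b := fun g a b => by
      rw [hT]
      push_cast
      ring
    have h3 : ∀ γ : ((∀ s, Equiv.Perm (Fin (k s))) × (∀ i : Idx k, 𝒮.G i.1)) →₀ ℚ,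
        ∑ g ∈ γ.support, (γ g : ℂ) * ((∏ s, (((Equiv.Perm.sign (g.1 s) : ℤˣ) : ℤ) : ℂ) ^ 𝒮.n s) *
          ∏ i : Idx k, 𝒮.om i.1 (b i) (g.2 i)) = γ.sum T := fun γ => by
      rw [hT]
      rfl
    rw [h3, Finsupp.sum_add_index' tz tadd, Finsupp.sum_single_index (tz _),
      Finsupp.sum_single_index (tz _), hT]
    beta_reduce
    rw [← hP, hc]
    simp only [Equiv.Perm.sign_one, Units.val_one, Int.cast_one, one_pow, Finset.prod_const_one]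
    push_cast
    ring

variable {S₁ S₂ S₃ S₄ : Type} [Fintype S₁] [Fintype S₂] [Fintype S₃] [Fintype S₄]
  [DecidableEq S₁] [DecidableEq S₂] [DecidableEq S₃] [DecidableEq S₄] {Y : Fly S₁ S₂ S₃ S₄}

/-- VOISIN'S CONJECTURE: if there is only one holomorphic form of the highest degree on the factors,
then a permutation of equal factors multiplies products of cycles of degree zero by the product of the
signs to the powers `n s`. -/
theorem voisin (hY : Y.Ok) {m : S₁ ⊕ S₂ ⊕ S₃ ⊕ S₄ → ℕ} (τ : ∀ s, Equiv.Perm (Fin (m s)))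
    (h1 : ∀ i : Idx m, Subsingleton (Y.Form i.1)) (x y : Pts Y.P m) :
    (cyc ℚ Finset.univ x y).mapDomain (fun z (i : Idx m) => z ⟨i.1, τ i.1 i.2⟩) -
      (∏ s, (((Equiv.Perm.sign (τ s) : ℤˣ) : ℤ) : ℚ) ^ Y.n s) • cyc ℚ Finset.univ x y ∈
      Y.rat m := by
  have hd : ∀ s, NeZero (Y.d s) := fun s => ⟨by have h1 := (hY.dim₁ s).1; omega⟩
  have hM₂ : ∀ s i, NeZero ((Y.V s).M i) := fun s i => ⟨by have h1 := hY.exp₂ s i; omega⟩
  have hM₄ : ∀ s i, NeZero ((Y.Z s).M i) := fun s i => ⟨by have h1 := hY.exp₄ s i; omega⟩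
  have h2 := perm_Voi (𝒮 := Y.sys) (sys_ok hY) Y.id τ h1 x y
  have e1 : ∀ (σ : ∀ s, Equiv.Perm (Fin (m s))) (z : Pts Y.P m),
      symAct Y.act σ (fun i : Idx m => Y.id i.1) z = fun i : Idx m => z ⟨i.1, σ i.1 i.2⟩ := by
    intro σ z
    funext i
    exact act_id i.1 _
  have e2 : (symAct Y.act τ fun i : Idx m => Y.id i.1) =
      fun (z : Pts Y.P m) (i : Idx m) => z ⟨i.1, τ i.1 i.2⟩ := funext (e1 τ)
  have e3 : (symAct Y.act (fun s => (1 : Equiv.Perm (Fin (m s)))) fun i : Idx m => Y.id i.1) =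
      (_root_.id : Pts Y.P m → Pts Y.P m) := funext (e1 fun _ => 1)
  change (cyc ℚ Finset.univ x y).mapDomain (symAct Y.act τ fun i : Idx m => Y.id i.1) -
    (∏ s, (((Equiv.Perm.sign (τ s) : ℤˣ) : ℤ) : ℚ) ^ Y.n s) •
      (cyc ℚ Finset.univ x y).mapDomain (symAct Y.act (fun s => (1 : Equiv.Perm (Fin (m s))))
        fun i : Idx m => Y.id i.1) ∈ Y.rat m at h2
  rw [e2, e3, Finsupp.mapDomain_id] at h2
  exact h2

end Pool.Agent.BBV
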